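import Mathlib
import Pool.Agent.X332.GT.NestSp

set_option autoImplicit false

/-!
# The dynamical special set and the special sets of the generalised Green-Griffiths-Lang conjecture

Let `X` be a projective variety given by nested sums of high powers of linear forms. We show that the
special sets of the problem coincide with a special set which is defined by sequences of points: the
smallest closed subset `SpDyn` of `X` such that all sequences of points of `X` outside of it which are
given by linear recurrences over towers of fields of coefficients are eventually periodic.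

We consider sequences of complex numbers. A *field of coefficients* (`CoefField`) is an algebra `B` of
sequences, closed under the shift and under inversion, whose elements vanish from some index on or do
not vanish from some index on; it is *finitely generated* (`FinGen`) if all its elements are rational
functions of finitely many of them. The *towers* (`TowF`) start with a finitely generated field of
coefficients, for instance the field of the rational functions along an orbit (such that every proper
closed subset contains only finitely many of its points) of a rational self-map of a variety of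
arbitrary dimension; in each step one goes to a field of coefficients which is generated by finitely
many sequences satisfying linear recurrences over the previous field.
-/

namespace Pool.Agent.Results.MP_160ed4_ag.NestedDynamicalSets

open FF MvPolynomial Filter Pool.Agent.H159R3.War Pool.Agent.H159R3.WarLog Pool.Agent.W603.BP
  Pool.Agent.W603.BPW Pool.Agent.W603.GW Pool.Agent.W603.GX Pool.Agent.W603.GY Pool.Agent.W602.GT
open Pool.Agent.TH143.DE Pool.Agent.TH143.HE Pool.Agent.TH143.TW Pool.Agent.TH143.GE
open Pool.Agent.X332.TO Pool.Agent.X332.GT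
open Pool.Agent.TH710.ND (IsNested)

variable {n : ℕ} {ι : Type}

/-- the empty boundary: `X` is projective -/
def noBoundary (n : ℕ) : Empty → MvPolynomial (Fin (n + 1)) ℂ := fun j => j.elim

/-- `X` is the projective variety `{F_i = 0}`, with homogeneous coordinates `Pts F (noBoundary n)` of
its points. Let `B` be the last field of a tower. Every sequence of points of `X`, outside of the set
`Z` (given by homogeneous coordinates), with homogeneous coordinates which satisfy linear recurrences
over `B`, is eventually periodic. -/
def TowersPeriodic (F : ι → MvPolynomial (Fin (n + 1)) ℂ) (Z : Set (Fin (n + 1) → ℂ)) : Prop :=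
  ∀ B : Subalgebra ℂ (ℕ → ℂ), TowF B → ∀ x : ℕ → Fin (n + 1) → ℂ,
    (∀ j, LinRec B fun m => x m j) → (∀ᶠ m in atTop, x m ∈ Pts F (noBoundary n)) →
    (∀ᶠ m in atTop, x m ∉ Z) → Per x

/-- The dynamical special set of `X`: the intersection of all closed subsets `Z` (the zeros of sets
`S` of forms) outside of which the sequences given by towers are eventually periodic. -/
def SpDyn (F : ι → MvPolynomial (Fin (n + 1)) ℂ) : Set (Fin (n + 1) → ℂ) :=
  {x | x ∈ Pts F (noBoundary n) ∧ ∀ S : Set (MvPolynomial (Fin (n + 1)) ℂ), Forms S →
    TowersPeriodic F (Zeros ℂ S) → x ∈ Zeros ℂ S}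

theorem tow_iff {F : ι → MvPolynomial (Fin (n + 1)) ℂ} (hF : ∀ i, ∃ d, (F i).IsHomogeneous d)
    {S : Set (MvPolynomial (Fin (n + 1)) ℂ)} (hS : Forms S) :
    TowersPeriodic F (Zeros ℂ S) ↔ Dyn (Set.range F) S := by
  have hX : Forms (Set.range F) := by
    rintro _ ⟨i, rfl⟩
    exact hF i
  have hpts : ∀ x : Fin (n + 1) → ℂ, x ∈ Pts F (noBoundary n) ↔ x ≠ 0 ∧ x ∈ Zeros ℂ (Set.range F) := by
    intro x
    constructor
    · rintro ⟨h1, h2, -⟩
      refine ⟨h1, ?_⟩
      rintro _ ⟨i, rfl⟩
      rw [aeval_eval]
      exact h2 i
    · rintro ⟨h1, h2⟩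
      refine ⟨h1, fun i => ?_, fun j => j.elim⟩
      rw [← aeval_eval]
      exact h2 _ ⟨i, rfl⟩
  constructor
  · intro h B hB hFg x h1 h2 h3 h4
    refine h B (TowF.base hB hFg) x (fun j => linRec_of_mem hB (h2 j)) ?_ ?_
    · filter_upwards [h1, h3] with m h5 h6
      exact (hpts _).2 ⟨h5, (isPtP_spanC hX).1 h6⟩
    · filter_upwards [h4] with m h5 h6
      exact h5 ((isPtP_spanC hS).2 h6)
  · intro h B hB x h1 h2 h3
    refine towF_good h hB x ?_ h1 ?_ ?_
    · filter_upwards [h2] with m h4
      exact ((hpts _).1 h4).1
    · filter_upwards [h2] with m h4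
      exact (isPtP_spanC hX).2 ((hpts _).1 h4).2
    · filter_upwards [h3] with m h4 h5
      exact h4 ((isPtP_spanC hS).1 h5)

/-- Let `X` be the projective variety `{F_i = 0}` in `P^n`, where the `F_i` are nested sums of high
powers of linear forms: at each of at most `h + 1` levels there are at most `s` summands and the
exponents are at least `(n + 1) (h + 1) (2 s + 1) ^ 5`.

The following subsets of `X` coincide: the dynamical special set `SpDyn`; the Zariski closure of the
union of the subvarieties of positive dimension which are not of general type; the union of the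
images of the holomorphic maps from the punctured disc with an essential singularity; the closure of
the union of the entire curves; the union of the images of the nonconstant morphisms from the
multiplicative group. All sequences of points of `X` outside of this set which are given by towers
are eventually periodic. If `X` is irreducible, it is of general type if and only if this set is not
`X`. -/
theorem result (F : ι → MvPolynomial (Fin (n + 1)) ℂ) {s N h : ℕ}
    (hF : ∀ i, IsNested s N h (F i)) (hN : (n + 1) * ((h + 1) * (2 * s + 1) ^ 5) ≤ N) :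
    (SpDyn F = gmPoints F (noBoundary n) ∧ SpAlgQ F (noBoundary n) = gmPoints F (noBoundary n) ∧
      picPoints F (noBoundary n) = gmPoints F (noBoundary n) ∧
      zcl F (noBoundary n) (holPoints F (noBoundary n)) = gmPoints F (noBoundary n)) ∧
    TowersPeriodic F (SpDyn F) ∧
    ∀ (K : Type) [Field K] [Algebra ℂ K] (w : ℕ) (y : Fin (n + 1) → K),
      SubVarQ F (noBoundary n) K w y → GenericQ F (noBoundary n) y →
      (GeneralType ℂ K w ↔ SpDyn F ≠ Pts F (noBoundary n)) := by
  have hQ : ∀ j, IsNested s N h (noBoundary n j) := fun j => j.elim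
  obtain ⟨hNb, hN2, hN1⟩ := Pool.Agent.TH710.ND.bnd_le hN
  have hF' : ∀ i, Pool.Agent.TH710.NW.Stab (F i) := fun i =>
    (Pool.Agent.TH710.ND.tower_of hN2 hN1 (hF i)).stab
  have hQ' : ∀ j, ∃ d, Pool.Agent.TH710.NW.StabLog (noBoundary n j) d := fun j => j.elim
  obtain ⟨h1, h2⟩ := Pool.Agent.TH710.NW.pic_eq F (noBoundary n) hF' hQ'
  have hsp := Pool.Agent.TH710.NW.special F (noBoundary n) hF' hQ'
  have hcl : zcl F (noBoundary n) (gmPoints F (noBoundary n)) = gmPoints F (noBoundary n) := by
    rw [h2] at h1
    exact h1
  have hBd : ∀ (K : Type) [Field K] [Algebra ℂ K] (y : Fin (n + 1) → K) (P : Place ℂ K),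
      ¬ OffAny (noBoundary n) y P := by
    rintro K _ _ y P ⟨j, -⟩
    exact j.elim
  have hform : ∀ i, ∃ d, (F i).IsHomogeneous d := fun i => (hF i).form
  have hgm : Zeros ℂ (dynForms (Set.range F)) \ {0} = gmPoints F (noBoundary n) := by
    refine dyn_gm hform hcl ?_
    intro K _ _ w y G hy hG hGy
    exact lgt_gt (Pool.Agent.TH710.ND.maps_lgt_gm hF hQ hNb hy hG hGy) (hBd K y)
  have hdyn : SpDyn F = gmPoints F (noBoundary n) := by
    rw [← hgm]
    apply Set.Subset.antisymm
    · rintro x ⟨hx, hx'⟩
      exact ⟨hx' _ (dynForms_forms _) ((tow_iff hform (dynForms_forms _)).2 dyn_dynForms), hx.1⟩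
    · intro x hx
      refine ⟨?_, fun S hS hT => (dyn_iff hS).1 ((tow_iff hform hS).1 hT) hx.1⟩
      rw [hgm, ← hcl] at hx
      exact hx.1
  refine ⟨⟨hdyn, Set.Subset.antisymm (Pool.Agent.TH710.ND.alg_sub_gm F (noBoundary n) hF hQ hN)
    (Pool.Agent.TH710.NW.gm_sub_alg F (noBoundary n) hF' hQ'), h2, hsp⟩, ?_, ?_⟩
  · intro B hB x hx hX hZ
    refine (tow_iff hform (dynForms_forms _)).2 dyn_dynForms B hB x hx hX ?_
    filter_upwards [hX, hZ] with m h3 h4 h5
    apply h4
    rw [hdyn, ← hgm]
    exact ⟨h5, h3.1⟩
  · intro K _ _ w y hy hg
    rw [hdyn]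
    constructor
    · rintro ⟨htr, N', hN', ω, h3, h4, h5⟩
      refine Pool.Agent.TH710.NW.ne_of_lgt hF' hQ' hy hg ⟨htr, N', hN', ω, h3,
        fun P hP j D hD => h4 P hP j D fun i => reg_of_log (hD i), fun P hP _ => h4 P hP, h5⟩
    · intro h3
      exact lgt_gt (Pool.Agent.TH710.ND.lgt_of_gm_ne hF hQ hN h3 hy hg) (hBd K y)

end Pool.Agent.Results.MP_160ed4_ag.NestedDynamicalSets
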