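import Mathlib
import Pool.Agent.X333.NK.Maps
import Pool.Agent.TH710.ND.Sp

/-!
MP_160ed4_ag, Q1: the logarithmic Kodaira dimension of all the varieties with a generically finite
map to a quasi-projective variety given by nested sums of high powers of linear forms, with any
number of boundary divisors.
-/

set_option autoImplicit false

namespace Pool.Agent.Results.MP_160ed4_ag.NestedKodairaMaps

open FF MvPolynomial Pool.Agent.W603.GW Pool.Agent.W603.GX Pool.Agent.W603.GY Pool.Agent.W602.GT
open Pool.Agent.TH710.ND (IsNested)

/-- Let `X` be the quasi-projective variety `{F_i = 0, Q_j ≠ 0}` in `P^n`, where the `F_i` and the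
(finitely many) `Q_j` are nested sums of high powers of linear forms: at each of at most `h + 1`
levels there are at most `s` summands and the exponents are at least
`(n + 1) (h + 1) (2 s + 1) ^ 5`. Let `q` be the number of the `Q_j`.

Let `V` be a quasi-projective variety of dimension `w` with a generically finite morphism to `X`, for
instance a closed subvariety of `X` or a ramified cover of one (`K` is the function field of `V`,
`y` the image of its generic point, and `Bd` are the places whose centre is not on `V`; they include
the places whose centre on the closure of the image is not in `X`).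

(1) The logarithmic Kodaira dimension of `V` is at least `w - (q - 1)` (it is `w` if `q ≤ 1`), or the
image of the generic point of `V` lies on an affine line which is contained in `X`: a line through
`y` on which all the `F_i` vanish and all the `Q_j` are constant.

(2) The logarithmic Kodaira dimension of `V` is `w`, or the image of the generic point of `V` lies
on an affine line or a punctured line which is contained in `X`. -/
theorem result {k : Type} [Field k] [IsAlgClosed k] [CharZero k] {n : ℕ} {ι κ : Type} [Finite κ]
    (F : ι → MvPolynomial (Fin (n + 1)) k) (Q : κ → MvPolynomial (Fin (n + 1)) k) {s N h : ℕ}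
    (hF : ∀ i, IsNested s N h (F i)) (hQ : ∀ j, IsNested s N h (Q j))
    (hN : (n + 1) * ((h + 1) * (2 * s + 1) ^ 5) ≤ N) (K : Type) [Field K] [Algebra k K] (w : ℕ)
    (y : Fin (n + 1) → K) (hy : MapQ F Q K w y) (Bd : Place k K → Prop)
    (hBd : ∀ P, OffAny Q y P → Bd P) :
    (AffLineX F Q y ∨ ∃ l, w ≤ l + (Nat.card κ - 1) ∧ KodGe k K w Bd l) ∧
      (PunctX F Q y ∨ KodGe k K w Bd w) := by
  have hmono : ∀ l, KodGe k K w (OffAny Q y) l → KodGe k K w Bd l := by
    rintro l ⟨N', hN', ω, h3, h4⟩
    exact ⟨N', hN', ω, fun j => ⟨(h3 j).1, (h3 j).2.1, fun P hP hb =>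
      (h3 j).2.2 P hP fun ho => hb (hBd P ho)⟩, h4⟩
  obtain ⟨hNb, -, -⟩ := Pool.Agent.TH710.ND.bnd_le hN
  refine ⟨?_, ?_⟩
  · have h0 := Pool.Agent.X333.NK.maps_kod hF hQ hNb hy
    rcases h0 with h1 | ⟨l, h1, h2⟩
    · exact Or.inl h1
    · exact Or.inr ⟨l, h1, hmono l h2⟩
  · have h0 := Pool.Agent.TH710.ND.maps_lgt hF hQ hNb hy
    rcases h0 with h1 | h1
    · exact Or.inl h1
    · exact Or.inr (hmono w h1)

end Pool.Agent.Results.MP_160ed4_ag.NestedKodairaMaps
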