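import Mathlib
import Pool.Agent.X333.NM.Alg

/-!
MP_160ed4_ag, Q1: the five conditions of the generalised Green-Griffiths-Lang conjecture for the
complements of coordinate hyperplanes in projective varieties given by nested sums of high powers of
monomials.
-/

set_option autoImplicit false

namespace Pool.Agent.Results.MP_160ed4_ag.NestedMonomialFive

open FF MvPolynomial Pool.Agent.W602.GT Pool.Agent.H159R3.GGLLog Pool.Agent.W603.BP
open Pool.Agent.TH710.ND (NestedIn IsMono)
open Pool.Agent.X333.NM

/-- Let `X` be the open part `x_j ≠ 0`, `j ∈ U`, of a projective variety `F = 0` in `P^n`, where the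
forms `F_e` are nested sums of high powers of monomials: at each of at most `h + 1` levels there are
at most `s` summands and the exponents are at least `(n + 1) (h + 1) (2 s + 1) ^ 5`.

(1) The special sets `Sp_alg`, `Sp_p`, `Sp_h` of `X` and the closure `SpT` of the union of the images
of the nonconstant morphisms from the multiplicative group coincide. (2) If `X` is irreducible of
positive dimension, it is of log general type if and only if these sets are not `X`. (3) Every
variety with a generically finite map to `X`, whose image is not contained in these sets, is of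
general type, and of log general type for every choice `Bd` of the boundary. -/
theorem result {n : ℕ} {ι : Type} [Finite ι] (U : Set (Fin (n + 1)))
    (F : ι → MvPolynomial (Fin (n + 1)) ℂ) {s N h : ℕ}
    (hF : ∀ e, IsForm (F e) ∧ NestedIn IsMono s N h (F e))
    (hN : (n + 1) * ((h + 1) * (2 * s + 1) ^ 5) ≤ N) :
    (SpAlgU U F = SpH U F ∧ SpP U F = SpH U F ∧ SpT U F = SpH U F) ∧
    (∀ (K : Type) [Field K] [Algebra ℂ K] (w : ℕ) (y : Fin (n + 1) → K), 1 ≤ w →
      SubVarU U F K w y → GenericU U F y → Irred U F →
      [LogGeneralType ℂ K w (OffU U y), SpAlgU U F ≠ Pts U F, SpP U F ≠ Pts U F,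
        SpH U F ≠ Pts U F, SpT U F ≠ Pts U F].TFAE) ∧
    ∀ (K : Type) [Field K] [Algebra ℂ K] (w : ℕ) (y : Fin (n + 1) → K)
      (G : MvPolynomial (Fin (n + 1)) ℂ), MapU U F K w y →
      (∀ x ∈ SpH U F, eval x G = 0) → val y G ≠ 0 →
      GeneralType ℂ K w ∧ ∀ Bd : Place ℂ K → Prop, LogGeneralType ℂ K w Bd := by
  obtain ⟨⟨h1, -, h2, h3⟩, h4⟩ := five_nested (U := U) hF hN
  refine ⟨⟨h1, h2, h3⟩, h4, ?_⟩
  intro K _ _ w y G hy hG hGy
  have key : ∀ Bd : Place ℂ K → Prop, LogGeneralType ℂ K w Bd := by
    intro Bd
    by_contra hgt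
    obtain ⟨x, b, hd, hx⟩ := orbits_of_not (fun e => (hF e).2)
      (Pool.Agent.TH710.ND.bnd_le hN).1 hy hgt hGy
    apply hx
    rw [val_eval]
    apply hG
    rw [← h3]
    have hx1 : x ∈ Pts U F := by
      rw [← cone_eq]
      have h5 := hd.1 1 one_ne_zero
      simpa using h5
    refine ⟨hx1, fun G' _ hv => ?_⟩
    have h6 := hv _ (torus_of_diag hd) 1 one_ne_zero
    simpa using h6
  exact ⟨general_of_log (key fun _ => False), key⟩

end Pool.Agent.Results.MP_160ed4_ag.NestedMonomialFive
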