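import Mathlib
import Pool.Agent.X332.GT.Spec
import Pool.Agent.X332.DL.Off

set_option autoImplicit false

/-!
# The dynamical special set, special subvarieties and entire curves with difference equations

Let `X` be a closed subset of the complex projective space, given by a set `SX` of forms. We compare
the special sets `Sp_alg(X)` and `Sp_h(X)` of the problem, which contain the subvarieties of positive
dimension which are not of general type and the entire curves, with a special set which is defined by
sequences of points.

We consider sequences of complex numbers. A *field of coefficients* (`CoefField`) is an algebra `B` of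
sequences, closed under the shift and under inversion, whose elements vanish from some index on or do
not vanish from some index on; it is *finitely generated* (`FinGen`) if all its elements are rational
functions of finitely many of them. An example is the field of the rational functions along an orbit
of a rational self-map of a variety `T` such that every proper closed subset of `T` contains only
finitely many points of the orbit. The *towers* (`TowF`) start with a finitely generated field of
coefficients; in each step one goes to a field of coefficients which is generated by finitely many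
sequences satisfying linear recurrences over the previous field.

The *self-similar* entire curves (`SelfSimilar`) are the images under rational maps of the *dilation
curves* (entire curves `φ` in projective spaces such that for some `q ≠ 0` which is not a root of
unity `φ(q z)` is the image of `φ(z)` under a rational map: solutions of `q`-difference equations,
Poincaré functions of rational self-maps, curves `exp(z v)` in abelian varieties and tori) and of the
*group curves* (for each `t` the translate `φ(z + t)` is the image of `φ(z)` under a rational map).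

We prove: there is a smallest closed subset `Sp_dyn(X)` of `X` such that all sequences of points of
`X` outside of it with homogeneous coordinates in a finitely generated field of coefficients are
eventually periodic, and this holds then also for the sequences of points given by linear recurrences
over the last field of a tower. It contains all nonconstant self-similar curves in `X` and the images
of all nonconstant maps from curves of genus at most one to `X`, and it is contained in each closed
subset `Z` such that the subvarieties of positive dimension of `X` not contained in `Z` are not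
special in the sense of Campana, in particular in `Sp_alg(X)`. If `X` is irreducible of positive
dimension and not special, for example of general type, then each sequence of points of `X` with
coordinates in a finitely generated field of coefficients is from some index on contained in a proper
closed subset of `X`, and no self-similar curve in `X` is Zariski dense.

`CSpecial ℂ K w` is Campana's definition by fibrations: there is no rational map from the variety with
function field `K` onto a variety of positive dimension whose orbifold base is of general type. If the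
map is given by the subfield `E` of `K`, of transcendence degree `e`, the latter means (`OrbGT`) that
for some `N > 0` there are sections `f_i (dy_1 ∧ … ∧ dy_e) ^ N`, regular at all prime divisors of all
models (`PReg`), where `y_1, …, y_e` are algebraically independent elements of `E`, whose ratios are
`e` algebraically independent elements of `E`.
-/

namespace Pool.Agent.Results.MP_160ed4_ag.SelfSimilarSpecialSet

open MvPolynomial Filter
open Pool.Agent.TH143.DE Pool.Agent.TH143.HE Pool.Agent.TH143.TW Pool.Agent.TH143.GE
open Pool.Agent.X332.TO Pool.Agent.X332.GT Pool.Agent.X332.SP Pool.Agent.X332.DL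
open Pool.Agent.W602.GT (coords GeneralType IsForm)
open Pool.Agent.W603.LV Pool.Agent.W619.PQ FF

variable {N : ℕ}

/-- Every sequence of points of `X`, outside of `Z`, with homogeneous coordinates in a finitely
generated field of coefficients is eventually periodic. -/
def FieldsPeriodic (SX SZ : Set (MvPolynomial (Fin (N + 1)) ℂ)) : Prop :=
  ∀ B : Subalgebra ℂ (ℕ → ℂ), CoefField B → FinGen B →
    ∀ x : ℕ → Fin (N + 1) → ℂ, (∀ᶠ m in atTop, x m ≠ 0) → (∀ j, (fun m => x m j) ∈ B) →
    (∀ᶠ m in atTop, x m ∈ Zeros ℂ SX) → (∀ᶠ m in atTop, x m ∉ Zeros ℂ SZ) → Per x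

/-- Every sequence of points of `X`, outside of `Z`, with homogeneous coordinates satisfying linear
recurrences over the last field of a tower is eventually periodic. -/
def TowersPeriodic (SX SZ : Set (MvPolynomial (Fin (N + 1)) ℂ)) : Prop :=
  ∀ B : Subalgebra ℂ (ℕ → ℂ), TowF B →
    ∀ x : ℕ → Fin (N + 1) → ℂ, (∀ᶠ m in atTop, x m ≠ 0) → (∀ j, LinRec B fun m => x m j) →
    (∀ᶠ m in atTop, x m ∈ Zeros ℂ SX) → (∀ᶠ m in atTop, x m ∉ Zeros ℂ SZ) → Per x

/-- All subvarieties of `X` of positive dimension which are not contained in `Z` are of general type: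
`F` is the function field and `y` the generic point, in homogeneous coordinates, of the subvariety,
`w` is its dimension. -/
def SubvarietiesGeneralType (SX SZ : Set (MvPolynomial (Fin (N + 1)) ℂ)) : Prop :=
  ∀ (F : Type) [Field F] [Algebra ℂ F] (w : ℕ) (y : Fin (N + 1) → F), 1 ≤ w →
    Algebra.trdeg ℂ F = w → y ≠ 0 → coords ℂ y = ⊤ → y ∈ Zeros F SX → y ∉ Zeros F SZ →
    GeneralType ℂ F w

/-- The images of all nonconstant maps from curves of genus zero or one to `X` are contained in `Z`.
The curves of genus one are given by their function field `F`, with canonical divisors of degree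
`canDeg ℂ F = 0`. -/
def GenusLeOneIn (SX SZ : Set (MvPolynomial (Fin (N + 1)) ℂ)) : Prop :=
  (∀ p : Fin (N + 1) → Polynomial ℂ, (∀ u, (fun j => (p j).eval u) ∈ Zeros ℂ SX) → NonConst p →
    ∀ u, (fun j => (p j).eval u) ∈ Zeros ℂ SZ) ∧
  ∀ (F : Type) [Field F] [Algebra ℂ F] [IsFF ℂ F], canDeg ℂ F = 0 →
    ∀ y : Fin (N + 1) → F, y ≠ 0 → y ∈ Zeros F SX →
      y ∈ Zeros F SZ ∨ ∃ (v : F) (c : Fin (N + 1) → ℂ), ∀ i, y i = algebraMap ℂ F (c i) * v

/-- The points `x z` of the projective space are all equal. -/
def IsConstant (x : ℂ → Fin (N + 1) → ℂ) : Prop := ∀ z w i j, x z i * x w j = x z j * x w i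

theorem fields_iff {SX SZ : Set (MvPolynomial (Fin (N + 1)) ℂ)} (hX : Forms SX) (hZ : Forms SZ) :
    FieldsPeriodic SX SZ ↔ Dyn SX SZ := by
  unfold Dyn FldPer FieldsPeriodic
  simp only [isPtP_spanC hX, isPtP_spanC hZ]

theorem result (SX : Set (MvPolynomial (Fin (N + 1)) ℂ)) (hX : Forms SX) :
    (∃ S₀ : Set (MvPolynomial (Fin (N + 1)) ℂ), Forms S₀ ∧ Zeros ℂ S₀ ⊆ Zeros ℂ SX ∧
      (∀ SZ, Forms SZ →
        [Zeros ℂ S₀ ⊆ Zeros ℂ SZ, FieldsPeriodic SX SZ, TowersPeriodic SX SZ].TFAE) ∧
      (∀ SZ, Forms SZ → NoSpecialOff SX SZ → Zeros ℂ S₀ ⊆ Zeros ℂ SZ) ∧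
      (∀ SZ, SubvarietiesGeneralType SX SZ → NoSpecialOff SX SZ) ∧
      (∀ x : ℂ → Fin (N + 1) → ℂ, SelfSimilar x → (∀ z, x z ∈ Zeros ℂ SX) →
        (∀ z, x z ∈ Zeros ℂ S₀) ∨ IsConstant x) ∧
      GenusLeOneIn SX S₀) ∧
      ∀ (K : Type) [Field K] [Algebra ℂ K] (w : ℕ) (y : Fin (N + 1) → K), 1 ≤ w →
        Algebra.trdeg ℂ K = w → GenericPoint SX K y →
        (GeneralType ℂ K w → ¬ CSpecial ℂ K w) ∧
        (¬ CSpecial ℂ K w →
          (∀ B : Subalgebra ℂ (ℕ → ℂ), CoefField B → FinGen B → ∀ x : ℕ → Fin (N + 1) → ℂ,
            (∀ j, (fun m => x m j) ∈ B) → (∀ᶠ m in atTop, x m ∈ Zeros ℂ SX) →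
            ∃ G, IsForm G ∧ (∃ x ∈ Zeros ℂ SX, eval x G ≠ 0) ∧ ∀ᶠ m in atTop, eval (x m) G = 0) ∧
          ∀ x : ℂ → Fin (N + 1) → ℂ, SelfSimilar x → (∀ z, x z ∈ Zeros ℂ SX) →
            ∃ G, IsForm G ∧ (∃ x ∈ Zeros ℂ SX, eval x G ≠ 0) ∧ ∀ z, eval (x z) G = 0) := by
  have htow : ∀ SZ, Forms SZ → (TowersPeriodic SX SZ ↔ ∀ B, TowF B →
      Good (RingHom.id ℂ) (Ideal.span SX) (Ideal.span SZ) B) := by
    intro SZ hZ
    unfold TowersPeriodic Good
    simp only [isPtP_spanC hX, isPtP_spanC hZ]
  refine ⟨⟨dynForms SX, dynForms_forms SX, (dyn_iff hX).1 dyn_self, fun SZ hZ => ?_,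
    fun SZ hZ h => (dyn_iff hZ).1 (dyn_of_noSpecial hX hZ h), fun SZ h => ?_, fun x hx hxX => ?_,
    ?_, ?_⟩, ?_⟩
  · rw [← dyn_iff hZ, fields_iff hX hZ, htow SZ hZ]
    tfae_have 1 → 2 := id
    tfae_have 2 → 3 := fun h B hB => towF_good h hB
    tfae_have 3 → 1 := fun h B hB hF x h1 h2 h3 h4 =>
      h B (TowF.base hB hF) x h1 (fun j => linRec_of_mem hB (h2 j)) h3 h4
    tfae_finish
  · intro F _ _ w y h1 h2 h3 h4 h5 h6
    exact not_cspecial_of_gt h1 h4 (h F w y h1 h2 h3 h4 h5 h6)
  · exact curve_in hX (dynForms_forms SX) dyn_dynForms hx hxX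
  · intro p h1 h2 u
    rw [← isPtP_spanC (dynForms_forms SX)]
    exact rat_of_fldPer (dyn_dynForms (SX := SX)) p
      (fun u => (isPtP_spanC hX).2 (h1 u)) h2 u
  · intro F _ _ _ h0 y h1 h2
    have hg : GenusOneIn (RingHom.id ℂ) (Ideal.span SX) (Ideal.span (dynForms SX)) := by
      by_contra hcon
      obtain ⟨B, hB, hF, -, x, h1, h2, h3, h4, h5⟩ := exists_bad fun h => hcon h.2
      exact h5 (dyn_dynForms B hB hF x h2 h1 h3 h4)
    rcases hg F h0 y h1 ((isPtP_span hX).2 h2) with h3 | h3
    · exact Or.inl ((isPtP_span (dynForms_forms SX)).1 h3)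
    · exact Or.inr h3
  · intro K _ _ w y hw hdim hy
    refine ⟨not_cspecial_of_gt hw hy.2.1, fun hs => ⟨fun B hB hF x hx hxX => ?_,
      fun x hx hxX => ?_⟩⟩
    · exact deg_seq hdim hy hs hB hF hx hxX
    · exact deg_curve hdim hy hs hx hxX

end Pool.Agent.Results.MP_160ed4_ag.SelfSimilarSpecialSet
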